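import Pool.Agent.N418.CZ.Stm

/-! # Project CZ, part CH12: the inequalities (CH1) and (CH2) -/

set_option autoImplicit false

namespace Pool.Agent.N514.CZ

open Module Pool.Agent.N418.CZ
open scoped TensorProduct

section abs

variable {G : Type} [Group G] [Fintype G] {X : Type} [AddCommGroup X] [Module ℝ X]

theorem invertible_card : Nonempty (Invertible (Fintype.card G : ℝ)) :=
  ⟨invertibleOfNonzero (by exact_mod_cast Fintype.card_ne_zero)⟩

/-- dimension of the invariants -/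
theorem finrank_invariants [FiniteDimensional ℝ X] (ρ : Representation ℝ G X) :
    (finrank ℝ ρ.invariants : ℝ) = (∑ g : G, LinearMap.trace ℝ X (ρ g)) / (Fintype.card G : ℝ) := by
  obtain ⟨hI⟩ := invertible_card (G := G)
  rw [← (Representation.isProj_averageMap ρ).trace]
  simp only [Representation.averageMap, GroupAlgebra.average, map_smul, map_sum,
    Representation.asAlgebraHom_of, smul_eq_mul, invOf_eq_inv]
  rw [div_eq_inv_mul]

theorem averageMap_comp [Invertible (Fintype.card G : ℝ)] (ρ : Representation ℝ G X) (g : G)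
    (v : X) : ρ.averageMap (ρ g v) = ρ.averageMap v := by
  rw [Representation.averageMap, ← Representation.asAlgebraHom_single_one,
    ← Module.End.mul_apply, ← map_mul (Representation.asAlgebraHom ρ),
    GroupAlgebra.mul_average_right]

/-- an equivariant (trivial target) linear map is determined by the invariants -/
theorem finrank_range_le [FiniteDimensional ℝ X] (ρ : Representation ℝ G X) {Y : Type}
    [AddCommGroup Y] [Module ℝ Y] (Φ : X →ₗ[ℝ] Y) (h : ∀ g v, Φ (ρ g v) = Φ v) :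
    finrank ℝ (LinearMap.range Φ) ≤ finrank ℝ ρ.invariants := by
  obtain ⟨hI⟩ := invertible_card (G := G)
  have h2 : LinearMap.range Φ ≤ ρ.invariants.map Φ := by
    rintro _ ⟨v, rfl⟩
    refine ⟨ρ.averageMap v, ρ.averageMap_invariant v, ?_⟩
    simp only [Representation.averageMap, GroupAlgebra.average, map_smul, map_sum,
      Representation.asAlgebraHom_of, LinearMap.smul_apply, LinearMap.sum_apply, h]
    rw [Finset.sum_const, Finset.card_univ, ← Nat.cast_smul_eq_nsmul ℝ, smul_smul,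
      invOf_mul_self, one_smul]
  exact (Submodule.finrank_mono h2).trans (Submodule.finrank_map_le _ _)

/-- if each vector is equivalent to a vector in the range of `Q` then the invariants are small -/
theorem finrank_invariants_le [FiniteDimensional ℝ X] (ρ : Representation ℝ G X) {Y : Type}
    [AddCommGroup Y] [Module ℝ Y] [FiniteDimensional ℝ Y] (Q : Y →ₗ[ℝ] X) (S : Set X)
    (hS : Submodule.span ℝ S = ⊤) (h : ∀ v ∈ S, ∃ g, ρ g v ∈ LinearMap.range Q) :
    finrank ℝ ρ.invariants ≤ finrank ℝ Y := by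
  obtain ⟨hI⟩ := invertible_card (G := G)
  have h2 : LinearMap.range ρ.averageMap ≤ LinearMap.range (ρ.averageMap ∘ₗ Q) := by
    rw [LinearMap.range_eq_map, ← hS, Submodule.map_span, Submodule.span_le]
    rintro _ ⟨v, hv, rfl⟩
    obtain ⟨g, y, hy⟩ := h v hv
    refine ⟨y, ?_⟩
    rw [LinearMap.comp_apply, hy, averageMap_comp]
  have h3 : ρ.invariants ≤ LinearMap.range ρ.averageMap := fun v hv =>
    ⟨v, ρ.averageMap_id v hv⟩
  exact (Submodule.finrank_mono (h3.trans h2)).trans (LinearMap.finrank_range_le _)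

end abs

section basic

variable {k n : ℕ}

theorem Pi_apply (σ : Equiv.Perm (Fin n)) (a b : Fin n → Fin k) :
    Pi σ a b = if b = (fun i => a (σ i)) then 1 else 0 := rfl

theorem Pi_mul (σ τ : Equiv.Perm (Fin n)) : Pi (k := k) (σ * τ) = Pi σ * Pi τ := by
  ext a c
  rw [Matrix.mul_apply]
  simp only [Pi_apply]
  rw [Finset.sum_eq_single (fun i => a (σ i))]
  · simp [Equiv.Perm.mul_apply]
  · intro b _ hb; simp [hb]
  · simp

theorem Pi_one : Pi (k := k) (1 : Equiv.Perm (Fin n)) = 1 := by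
  ext a b
  rw [Pi_apply, Matrix.one_apply]
  simp [eq_comm]

theorem Pi_transpose (σ : Equiv.Perm (Fin n)) : (Pi (k := k) σ).transpose = Pi σ⁻¹ := by
  ext a b
  rw [Matrix.transpose_apply, Pi_apply, Pi_apply]
  congr 1
  refine propext ⟨fun h => ?_, fun h => ?_⟩
  · funext i
    rw [h]
    simp
  · funext i
    rw [h]
    simp

theorem Pi_mem (σ : Equiv.Perm (Fin n)) : Pi σ ∈ A k n := Submodule.subset_span ⟨σ, rfl⟩

theorem left_mem (g : Equiv.Perm (Fin n)) : ∀ a ∈ A k n, Pi g * a ∈ A k n := by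
  intro a ha
  have h : A k n ≤ (A k n).comap (LinearMap.mulLeft ℝ (Pi (k := k) g)) := by
    refine Submodule.span_le.2 ?_
    rintro _ ⟨h, rfl⟩
    change Pi g * Pi h ∈ A k n
    rw [← Pi_mul]
    exact Pi_mem _
  exact h ha

theorem right_mem (g : Equiv.Perm (Fin n)) : ∀ a ∈ A k n, a * Pi g ∈ A k n := by
  intro a ha
  have h : A k n ≤ (A k n).comap (LinearMap.mulRight ℝ (Pi (k := k) g)) := by
    refine Submodule.span_le.2 ?_
    rintro _ ⟨h, rfl⟩
    change Pi h * Pi g ∈ A k n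
    rw [← Pi_mul]
    exact Pi_mem _
  exact h ha

theorem transpose_mem {a : Matrix (Fin n → Fin k) (Fin n → Fin k) ℝ} (ha : a ∈ A k n) :
    a.transpose ∈ A k n := by
  have h : A k n ≤ (A k n).comap
      (Matrix.transposeLinearEquiv (Fin n → Fin k) (Fin n → Fin k) ℝ ℝ).toLinearMap := by
    refine Submodule.span_le.2 ?_
    rintro _ ⟨h, rfl⟩
    change (Pi h).transpose ∈ A k n
    rw [Pi_transpose]
    exact Pi_mem _
  exact h ha

/-- left multiplication -/
noncomputable def Lm (g : Equiv.Perm (Fin n)) : A k n →ₗ[ℝ] A k n :=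
  (LinearMap.mulLeft ℝ (Pi (k := k) g)).restrict (left_mem g)

/-- right multiplication -/
noncomputable def Rm (g : Equiv.Perm (Fin n)) : A k n →ₗ[ℝ] A k n :=
  (LinearMap.mulRight ℝ (Pi (k := k) g)).restrict (right_mem g)

theorem Lm_coe (g : Equiv.Perm (Fin n)) (a : A k n) :
    (Lm g a : Matrix (Fin n → Fin k) (Fin n → Fin k) ℝ) =
      Pi g * (a : Matrix (Fin n → Fin k) (Fin n → Fin k) ℝ) := rfl

theorem Rm_coe (g : Equiv.Perm (Fin n)) (a : A k n) :
    (Rm g a : Matrix (Fin n → Fin k) (Fin n → Fin k) ℝ) =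
      (a : Matrix (Fin n → Fin k) (Fin n → Fin k) ℝ) * Pi g := rfl

/-- transposition -/
noncomputable def Tm : A k n ≃ₗ[ℝ] A k n where
  toFun a := ⟨(a : Matrix _ _ ℝ).transpose, transpose_mem a.2⟩
  invFun a := ⟨(a : Matrix _ _ ℝ).transpose, transpose_mem a.2⟩
  left_inv a := by ext; rfl
  right_inv a := by ext; rfl
  map_add' a b := by ext; rfl
  map_smul' c a := by ext; rfl

theorem trace_Rm (g : Equiv.Perm (Fin n)) :
    LinearMap.trace ℝ (A k n) (Rm g⁻¹) = LinearMap.trace ℝ (A k n) (Lm g) := by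
  rw [← LinearMap.trace_conj' (Lm g) Tm]
  congr 1
  refine LinearMap.ext fun a => Subtype.ext ?_
  rw [LinearEquiv.conj_apply]
  change (a : Matrix (Fin n → Fin k) (Fin n → Fin k) ℝ) * Pi g⁻¹ =
    (Pi g * (a : Matrix (Fin n → Fin k) (Fin n → Fin k) ℝ).transpose).transpose
  rw [Matrix.transpose_mul, Matrix.transpose_transpose, Pi_transpose]

theorem ltrace_eq (g : Equiv.Perm (Fin n)) :
    ltrace (A k n) (Pi g) = LinearMap.trace ℝ (A k n) (Lm g) := by
  unfold ltrace
  rw [dif_pos (left_mem g)]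
  rfl

theorem Lm_mul (g h : Equiv.Perm (Fin n)) : Lm (k := k) (g * h) = Lm g * Lm h := by
  refine LinearMap.ext fun a => Subtype.ext ?_
  rw [Module.End.mul_apply, Lm_coe, Lm_coe, Lm_coe, Pi_mul, Matrix.mul_assoc]

theorem Rm_mul (g h : Equiv.Perm (Fin n)) : Rm (k := k) (g * h) = Rm h * Rm g := by
  refine LinearMap.ext fun a => Subtype.ext ?_
  rw [Module.End.mul_apply, Rm_coe, Rm_coe, Rm_coe, Pi_mul, Matrix.mul_assoc]

theorem Lm_one : Lm (k := k) (1 : Equiv.Perm (Fin n)) = 1 := by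
  refine LinearMap.ext fun a => Subtype.ext ?_
  rw [Lm_coe, Pi_one, Matrix.one_mul]
  rfl

theorem Rm_one : Rm (k := k) (1 : Equiv.Perm (Fin n)) = 1 := by
  refine LinearMap.ext fun a => Subtype.ext ?_
  rw [Rm_coe, Pi_one, Matrix.mul_one]
  rfl

theorem ext1_castSucc (σ : Equiv.Perm (Fin n)) (i : Fin n) :
    ext1 σ i.castSucc = (σ i).castSucc := by
  unfold ext1
  simp [Equiv.permCongr]

theorem ext1_last (σ : Equiv.Perm (Fin n)) : ext1 σ (Fin.last n) = Fin.last n := by
  unfold ext1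
  simp [Equiv.permCongr]

theorem ext1_mul (σ τ : Equiv.Perm (Fin n)) : ext1 (σ * τ) = ext1 σ * ext1 τ := by
  refine Equiv.ext fun i => ?_
  rw [Equiv.Perm.mul_apply]
  refine Fin.lastCases ?_ (fun i => ?_) i
  · rw [ext1_last, ext1_last, ext1_last]
  · rw [ext1_castSucc, ext1_castSucc, ext1_castSucc, Equiv.Perm.mul_apply]

theorem ext1_one : ext1 (1 : Equiv.Perm (Fin n)) = 1 := by
  refine Equiv.ext fun i => ?_
  refine Fin.lastCases ?_ (fun i => ?_) i
  · rw [ext1_last]; rfl
  · rw [ext1_castSucc]; rfl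

/-- the inclusion of the matrices of the `n`-th tensor power -/
noncomputable def incl : Matrix (Fin n → Fin k) (Fin n → Fin k) ℝ →ₗ[ℝ]
    Matrix (Fin (n + 1) → Fin k) (Fin (n + 1) → Fin k) ℝ where
  toFun a := Matrix.of fun x y => a (fun i => x i.castSucc) (fun i => y i.castSucc) *
    (if y (Fin.last n) = x (Fin.last n) then 1 else 0)
  map_add' a b := by ext x y; simp only [Matrix.of_apply, Matrix.add_apply, add_mul]
  map_smul' c a := by ext x y; simp

theorem incl_Pi (σ : Equiv.Perm (Fin n)) : incl (Pi (k := k) σ) = Pi (ext1 σ) := by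
  ext x y
  change (Pi σ (fun i => x i.castSucc) (fun i => y i.castSucc)) *
    (if y (Fin.last n) = x (Fin.last n) then 1 else 0) = _
  rw [Pi_apply, Pi_apply]
  by_cases h : y = fun i => x (ext1 σ i)
  · rw [if_pos h, if_pos, if_pos, one_mul]
    · rw [h]; simp [ext1_last]
    · funext i
      rw [h]; simp [ext1_castSucc]
  · rw [if_neg h]
    by_cases h1 : (fun i : Fin n => y i.castSucc) = fun i => x (σ i).castSucc
    · rw [if_pos h1, one_mul, if_neg]
      intro h2
      refine h (funext fun i => ?_)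
      refine Fin.lastCases ?_ (fun i => ?_) i
      · rw [ext1_last, h2]
      · rw [ext1_castSucc]
        exact congrFun h1 i
    · rw [if_neg h1, zero_mul]

theorem incl_mul_Pi (g : Equiv.Perm (Fin n)) (a : Matrix (Fin n → Fin k) (Fin n → Fin k) ℝ)
    (ha : a ∈ A k n) : incl (a * Pi g) = incl a * Pi (ext1 g) := by
  have h : A k n ≤ LinearMap.eqLocus (incl ∘ₗ (LinearMap.mulRight ℝ (Pi (k := k) g)))
      ((LinearMap.mulRight ℝ (Pi (k := k) (ext1 g))) ∘ₗ incl) := by
    refine Submodule.span_le.2 ?_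
    rintro _ ⟨h, rfl⟩
    change incl (Pi h * Pi g) = incl (Pi h) * Pi (ext1 g)
    rw [← Pi_mul, incl_Pi, incl_Pi, ext1_mul, Pi_mul]
  exact h ha

/-- the representation for (CH2) -/
noncomputable def rho2 : Representation ℝ (Equiv.Perm (Fin n)) (A k n ⊗[ℝ] A k (n + 1)) where
  toFun g := TensorProduct.map (Rm g⁻¹) (Lm (ext1 g))
  map_one' := by
    rw [inv_one, Rm_one, ext1_one, Lm_one]
    exact TensorProduct.map_one
  map_mul' g h := by
    rw [mul_inv_rev, Rm_mul, ext1_mul, Lm_mul]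
    exact TensorProduct.map_mul _ _ _ _

/-- the product map for (CH2) -/
noncomputable def phi2 : (A k n ⊗[ℝ] A k (n + 1)) →ₗ[ℝ]
    Matrix (Fin (n + 1) → Fin k) (Fin (n + 1) → Fin k) ℝ :=
  LinearMap.mul' ℝ _ ∘ₗ TensorProduct.map (incl ∘ₗ (A k n).subtype) (A k (n + 1)).subtype

theorem phi2_tmul (a : A k n) (b : A k (n + 1)) :
    phi2 (a ⊗ₜ b) = incl (a : Matrix (Fin n → Fin k) (Fin n → Fin k) ℝ) *
      (b : Matrix (Fin (n + 1) → Fin k) (Fin (n + 1) → Fin k) ℝ) := rfl

theorem phi2_rho2 (g : Equiv.Perm (Fin n)) (v : A k n ⊗[ℝ] A k (n + 1)) :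
    phi2 (rho2 g v) = phi2 v := by
  have h : phi2 ∘ₗ (rho2 g) = (phi2 : (A k n ⊗[ℝ] A k (n + 1)) →ₗ[ℝ] _) := by
    refine TensorProduct.ext' fun a b => ?_
    rw [LinearMap.comp_apply]
    change phi2 ((Rm g⁻¹ a) ⊗ₜ (Lm (ext1 g) b)) = _
    rw [phi2_tmul, phi2_tmul, Rm_coe, Lm_coe, incl_mul_Pi _ _ a.2, Matrix.mul_assoc,
      ← Matrix.mul_assoc (Pi (ext1 g⁻¹)), ← Pi_mul, ← ext1_mul, inv_mul_cancel, ext1_one, Pi_one,
      Matrix.one_mul]
  exact LinearMap.congr_fun h v

theorem t_CH2 : S_CH2 := by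
  intro k n
  have h1 := finrank_range_le (G := Equiv.Perm (Fin n)) (X := A k n ⊗[ℝ] A k (n + 1))
    (rho2 (k := k) (n := n)) phi2 phi2_rho2
  have h2 : A k (n + 1) ≤ LinearMap.range (phi2 (k := k) (n := n)) := by
    intro b hb
    refine ⟨(⟨Pi 1, Pi_mem 1⟩ : A k n) ⊗ₜ ⟨b, hb⟩, ?_⟩
    rw [phi2_tmul]
    change incl (Pi 1) * b = b
    rw [incl_Pi, ext1_one, Pi_one, Matrix.one_mul]
  have h3 : (finrank ℝ (A k (n + 1)) : ℝ) ≤ finrank ℝ (Representation.invariants (k := ℝ)
      (G := Equiv.Perm (Fin n)) (V := A k n ⊗[ℝ] A k (n + 1)) (rho2 (k := k) (n := n))) := by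
    exact_mod_cast (Submodule.finrank_mono h2).trans h1
  refine h3.trans (le_of_eq ?_)
  rw [finrank_invariants, Fintype.card_perm, Fintype.card_fin]
  congr 1
  refine Finset.sum_congr rfl fun g _ => ?_
  change LinearMap.trace ℝ _ (TensorProduct.map (Rm g⁻¹) (Lm (ext1 g))) = _
  rw [LinearMap.trace_tensorProduct', trace_Rm, ltrace_eq, ltrace_eq]

/-- the representation for (CH1) -/
noncomputable def rho1 : Representation ℝ (Equiv.Perm (Fin n)) (A k n ⊗[ℝ] A k n) where
  toFun g := TensorProduct.map (Rm g⁻¹) (Lm g)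
  map_one' := by
    rw [inv_one, Rm_one, Lm_one]
    exact TensorProduct.map_one
  map_mul' g h := by
    rw [mul_inv_rev, Rm_mul, Lm_mul]
    exact TensorProduct.map_mul _ _ _ _

theorem t_CH1 : S_CH1 := by
  intro k n
  have h1 := finrank_invariants_le (G := Equiv.Perm (Fin n)) (X := A k n ⊗[ℝ] A k n)
    (rho1 (k := k) (n := n))
    (TensorProduct.mk ℝ (A k n) (A k n) ⟨Pi 1, Pi_mem 1⟩)
    {v | ∃ (h : Equiv.Perm (Fin n)) (b : A k n), v = (⟨Pi h, Pi_mem h⟩ : A k n) ⊗ₜ b}
    (by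
      rw [eq_top_iff, ← TensorProduct.span_tmul_eq_top, Submodule.span_le]
      rintro _ ⟨a, b, rfl⟩
      have h : (⊤ : Submodule ℝ (A k n)) ≤ (Submodule.span ℝ
          {v | ∃ (h : Equiv.Perm (Fin n)) (b : A k n), v = (⟨Pi h, Pi_mem h⟩ : A k n) ⊗ₜ b}).comap
          ((TensorProduct.mk ℝ (A k n) (A k n)).flip b) := by
        have h5 : (⊤ : Submodule ℝ (A k n)) = Submodule.span ℝ
            (Set.range fun h : Equiv.Perm (Fin n) => (⟨Pi h, Pi_mem h⟩ : A k n)) := by
          symm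
          rw [eq_top_iff]
          rintro ⟨x, hx⟩ _
          refine Submodule.span_induction (p := fun x hx => (⟨x, hx⟩ : A k n) ∈ Submodule.span ℝ
            (Set.range fun h : Equiv.Perm (Fin n) => (⟨Pi h, Pi_mem h⟩ : A k n))) ?_ ?_ ?_ ?_ hx
          · rintro _ ⟨h, rfl⟩
            exact Submodule.subset_span ⟨h, rfl⟩
          · exact Submodule.zero_mem _
          · intro x y hx hy h1 h2
            exact Submodule.add_mem _ h1 h2
          · intro c x hx h1
            exact Submodule.smul_mem _ c h1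
        rw [h5]
        refine Submodule.span_le.2 ?_
        rintro _ ⟨h, rfl⟩
        exact Submodule.subset_span ⟨h, b, rfl⟩
      exact h (Submodule.mem_top (x := a)))
    (by
      rintro _ ⟨h, b, rfl⟩
      refine ⟨h, Lm h b, ?_⟩
      change (⟨Pi 1, Pi_mem 1⟩ : A k n) ⊗ₜ (Lm h b) =
        (Rm h⁻¹ (⟨Pi h, Pi_mem h⟩ : A k n)) ⊗ₜ (Lm h b)
      congr 1
      refine Subtype.ext ?_
      rw [Rm_coe]
      change Pi 1 = Pi h * Pi h⁻¹
      rw [← Pi_mul, mul_inv_cancel])
  have h3 : (finrank ℝ (Representation.invariants (k := ℝ)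
      (G := Equiv.Perm (Fin n)) (V := A k n ⊗[ℝ] A k n) (rho1 (k := k) (n := n))) : ℝ) ≤
        finrank ℝ (A k n) := by
    exact_mod_cast h1
  refine (le_of_eq ?_).trans h3
  rw [finrank_invariants, Fintype.card_perm, Fintype.card_fin]
  congr 1
  refine Finset.sum_congr rfl fun g _ => ?_
  change _ = LinearMap.trace ℝ _ (TensorProduct.map (Rm g⁻¹) (Lm g))
  rw [LinearMap.trace_tensorProduct', trace_Rm, ltrace_eq, sq]

end basic

end Pool.Agent.N514.CZ
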